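import Pool.Agent.J4H13.TG.Jobs

/-!
# Project TG (helper13): the machine for the group ring of extensions generated by cube roots
(helper98)
-/

set_option autoImplicit false

open MvPolynomial

namespace Pool.Agent.J4H98.TG

open Pool.Agent.Helper397.HK Pool.Agent.J4H13.BC Pool.Agent.J4H13.BD
open Pool.Agent.J4H13.TL (exists_zeta cube_fac isGalois_cbrt zeta_pow count3)
open Pool.Agent.J4H13.TG (S_KC3)

/-- `x + y Z = 0` with rational `x`, `y` -/
lemma rat_zero {K : Type} [Field K] [CharZero K] {Z : K} (hZ : 1 + Z + Z ^ 2 = 0) {x y : ℚ}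
    (h : (x : K) + y * Z = 0) : x = 0 ∧ y = 0 := by
  have hy : y = 0 := by
    by_contra hy
    have h1 : Z = ((-x / y : ℚ) : K) := by
      have hyK : (y : K) ≠ 0 := by exact_mod_cast hy
      push_cast
      rw [eq_div_iff hyK]
      linear_combination h
    have h2 : (((1 + (-x / y) + (-x / y) ^ 2 : ℚ)) : K) = 0 := by
      rw [← hZ, h1]
      push_cast
      ring
    have h3 : (1 + (-x / y) + (-x / y) ^ 2 : ℚ) = 0 := by exact_mod_cast h2
    nlinarith [sq_nonneg (-x / y + 1 / 2)]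
  rw [hy] at h
  refine ⟨?_, hy⟩
  have h2 : (x : K) = 0 := by
    rw [← h]
    push_cast
    ring
  exact_mod_cast h2

/-- the coordinates of the powers of `Z` -/
lemma exists_coord {K : Type} [Field K] [CharZero K] {Z : K} (hZ : 1 + Z + Z ^ 2 = 0) (m : ℕ) :
    ∃ x y : ℚ, Z ^ m = x + y * Z ∧ (Z ^ m) ^ 2 = x + y * Z ^ 2 := by
  have h3 : Z ^ 3 = 1 := by linear_combination (Z - 1) * hZ
  have h1 : Z ^ m = Z ^ (m % 3) := by
    conv_lhs => rw [← Nat.div_add_mod m 3, pow_add, pow_mul, h3, one_pow, one_mul]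
  have h2 : m % 3 < 3 := Nat.mod_lt _ (by norm_num)
  rw [h1]
  rcases (by omega : m % 3 = 0 ∨ m % 3 = 1 ∨ m % 3 = 2) with h | h | h
  · rw [h]
    exact ⟨1, 0, by push_cast; ring, by push_cast; ring⟩
  · rw [h]
    exact ⟨0, 1, by push_cast; ring, by push_cast; ring⟩
  · rw [h]
    refine ⟨-1, -1, ?_, ?_⟩
    · push_cast
      linear_combination hZ
    · push_cast
      linear_combination Z * h3 + hZ

lemma fg_sup {R A ι : Type} [CommRing R] [CommRing A] [Algebra R A] (s : Finset ι)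
    (B : ι → Subalgebra R A) (h : ∀ i, (B i).FG) : (s.sup B).FG := by
  classical
  induction s using Finset.induction_on with
  | empty =>
    rw [Finset.sup_empty]
    exact Subalgebra.fg_bot
  | insert a s ha ih =>
    rw [Finset.sup_insert]
    exact (h a).sup ih

theorem t_KC3 : S_KC3 := by
  classical
  intro K _ _ k₀ k w hw hw0 hgen _ Γ hk₀ huni N ξ
  obtain ⟨hfin, hgal⟩ := isGalois_cbrt hw hgen
  let G := K ≃ₐ[k₀] K
  have hcomm : SMulCommClass G ℂ K := by
    refine ⟨fun σ c x => ?_⟩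
    change σ (c • x) = c • σ x
    rw [Algebra.smul_def, Algebra.smul_def, map_mul]
    congr 1
    exact σ.commutes (algebraMap ℂ k₀ c)
  have hcharK : CharZero K := charZero_of_C K
  obtain ⟨ζ, h3, hζ⟩ := exists_zeta
  obtain ⟨Z, hZ⟩ : ∃ Z : K, Z = algebraMap ℂ K ζ := ⟨_, rfl⟩
  have hZ1 : 1 + Z + Z ^ 2 = 0 := by
    have := congrArg (algebraMap ℂ K) hζ
    rw [hZ]
    simpa using this
  have hZpow : ∀ m : ℕ, Z ^ m = 1 ↔ 3 ∣ m := by
    intro m
    rw [← (zeta_pow h3 hζ m).2, hZ, ← map_pow]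
    constructor
    · intro h
      rw [← map_one (algebraMap ℂ K)] at h
      exact (algebraMap ℂ K).injective h
    · intro h
      rw [h, map_one]
  have hZ3 : Z ^ 3 = 1 := (hZpow 3).2 (dvd_refl 3)
  have hZ0 : Z ≠ 0 := by
    rintro h
    rw [h] at hZ3
    norm_num at hZ3
  have hZsum : ∀ m : ℕ, Z ^ m + (Z ^ m) ^ 2 = (if 3 ∣ m then 3 else 0) - 1 := by
    intro m
    have h1 := (zeta_pow h3 hζ m).1
    have h2 := congrArg (algebraMap ℂ K) h1
    simp only [map_add, map_pow, map_one] at h2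
    rw [← hZ] at h2
    have h4 : algebraMap ℂ K (if 3 ∣ m then 3 else 0) = if 3 ∣ m then 3 else 0 := by
      split_ifs
      · exact map_ofNat _ 3
      · exact map_zero _
    rw [h4] at h2
    linear_combination h2
  have hZσ : ∀ (σ : G), σ Z = Z := by
    intro σ
    rw [hZ]
    exact σ.commutes (algebraMap ℂ k₀ ζ)
  -- the exponents
  have hsign : ∀ (σ : G) (i : Fin k), ∃ a : ℕ, σ (w i) = Z ^ a * w i := by
    intro σ i
    have h1 : σ (w i) ^ 3 = w i ^ 3 := by
      rw [← map_pow]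
      exact σ.commutes ⟨w i ^ 3, hw i⟩
    have h2 := cube_fac hZ1 (σ (w i)) (w i)
    rw [h1, sub_self] at h2
    rcases mul_eq_zero.1 h2.symm with h | h
    · exact ⟨0, by rw [pow_zero, one_mul]; exact sub_eq_zero.1 h⟩
    rcases mul_eq_zero.1 h with h | h
    · exact ⟨1, by rw [pow_one]; exact sub_eq_zero.1 h⟩
    · exact ⟨2, sub_eq_zero.1 h⟩
  choose a haw using hsign
  let wS : (Fin k → Fin 3) → K := fun e => ∏ i, w i ^ (e i : ℕ)
  have hwS0 : ∀ e, wS e ≠ 0 := fun e => Finset.prod_ne_zero_iff.2 fun i _ =>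
    pow_ne_zero _ (hw0 i)
  have hσS : ∀ (σ : G) (e), σ (wS e) = Z ^ (∑ i, (e i : ℕ) * a σ i) * wS e := by
    intro σ e
    change σ (∏ i, w i ^ (e i : ℕ)) = _
    rw [map_prod, ← Finset.prod_pow_eq_pow_sum, ← Finset.prod_mul_distrib]
    refine Finset.prod_congr rfl fun i _ => ?_
    rw [map_pow, haw, mul_pow, ← pow_mul, mul_comm (a σ i)]
  obtain ⟨χ, hχ⟩ : ∃ χ : (Fin k → Fin 3) → G → K,
    ∀ e σ, χ e σ = Z ^ (∑ i, (e i : ℕ) * a σ i) := ⟨fun e σ => _, fun e σ => rfl⟩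
  have hχS : ∀ (σ : G) (e), σ (wS e) = χ e σ * wS e := fun σ e => by rw [hσS, hχ]
  have hχmul : ∀ e σ τ, χ e (σ * τ) = χ e σ * χ e τ := by
    intro e σ τ
    have h1 : (σ * τ) (wS e) = σ (τ (wS e)) := rfl
    rw [hχS, hχS τ, map_mul, hχS σ] at h1
    have h2 : σ (χ e τ) = χ e τ := by rw [hχ, map_pow, hZσ]
    rw [h2] at h1
    have h4 : χ e (σ * τ) * wS e = (χ e σ * χ e τ) * wS e := by
      rw [h1]
      ring
    exact mul_right_cancel₀ (hwS0 e) h4
  have hχ3 : ∀ e σ, χ e σ ^ 3 = 1 := by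
    intro e σ
    rw [hχ, ← pow_mul, mul_comm, pow_mul, hZ3, one_pow]
  have hχ1 : ∀ e, χ e 1 = 1 := by
    intro e
    have h1 := hχS 1 e
    have h2 : (1 : G) (wS e) = wS e := rfl
    rw [h2] at h1
    exact mul_right_cancel₀ (hwS0 e) (by rw [one_mul]; exact h1.symm)
  have hχinv : ∀ e σ, χ e σ⁻¹ = χ e σ ^ 2 := by
    intro e σ
    have h1 := hχmul e σ⁻¹ σ
    rw [inv_mul_cancel, hχ1] at h1
    have h2 := hχ3 e σ
    have h4 : χ e σ ≠ 0 := by
      intro h
      rw [h, mul_zero] at h1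
      exact one_ne_zero h1
    apply mul_right_cancel₀ h4
    rw [← h1, ← h2]
    ring
  let H : (Fin k → Fin 3) → Subgroup G := fun e => MulAction.stabilizer G (wS e)
  have hmem : ∀ (σ : G) e, σ ∈ H e ↔ 3 ∣ ∑ i, (e i : ℕ) * a σ i := by
    intro σ e
    rw [MulAction.mem_stabilizer_iff]
    change σ (wS e) = wS e ↔ _
    rw [hσS, ← hZpow]
    exact mul_eq_right₀ (hwS0 e)
  have hk0 : (3 : ℚ) ^ k ≠ 0 := pow_ne_zero _ (by norm_num)
  have hσ1 : ∀ σ : G, σ ≠ 1 → ∃ i, ¬ 3 ∣ a σ i := by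
    intro σ hσ
    by_contra hcon
    push Not at hcon
    apply hσ
    have h7 : ∀ x : K, σ x = x := by
      have h8 : IntermediateField.adjoin k₀ (Set.range w) ≤
          IntermediateField.fixedField (Subgroup.zpowers σ) := by
        rw [IntermediateField.adjoin_le_iff]
        rintro _ ⟨i, rfl⟩
        rw [SetLike.mem_coe, IntermediateField.mem_fixedField_iff]
        intro τ hτ
        have h9 : σ (w i) = w i := by rw [haw, (hZpow _).2 (hcon i), one_mul]
        have h10 : Subgroup.zpowers σ ≤ MulAction.stabilizer G (w i) := by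
          rw [Subgroup.zpowers_le, MulAction.mem_stabilizer_iff]
          exact h9
        exact h10 hτ
      intro x
      have h11 : x ∈ IntermediateField.fixedField (Subgroup.zpowers σ) := by
        apply h8
        rw [hgen]
        trivial
      exact (IntermediateField.mem_fixedField_iff _ _).1 h11 σ (Subgroup.mem_zpowers σ)
    ext x
    exact h7 x
  -- the Fourier coefficients
  obtain ⟨γ, hγ⟩ : ∃ γ : (Fin k → Fin 3) → K, ∀ e, γ e = ∑ σ, (Γ σ : K) * χ e σ :=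
    ⟨fun e => _, fun e => rfl⟩
  obtain ⟨γ', hγ'⟩ : ∃ γ' : (Fin k → Fin 3) → K, ∀ e, γ' e = ∑ σ, (Γ σ : K) * χ e σ ^ 2 :=
    ⟨fun e => _, fun e => rfl⟩
  have hconj : ∀ e, γ e = 0 → γ' e = 0 := by
    intro e he
    have h1 : ∀ σ, ∃ x y : ℚ, χ e σ = x + y * Z ∧ χ e σ ^ 2 = x + y * Z ^ 2 := by
      intro σ
      rw [hχ]
      exact exists_coord hZ1 _
    choose x y hx hy using h1
    have h2 : γ e = ((∑ σ, Γ σ * x σ : ℚ) : K) + ((∑ σ, Γ σ * y σ : ℚ) : K) * Z := by
      rw [hγ]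
      push_cast
      rw [Finset.sum_mul, ← Finset.sum_add_distrib]
      refine Finset.sum_congr rfl fun σ _ => ?_
      rw [hx]
      ring
    have h4 : γ' e = ((∑ σ, Γ σ * x σ : ℚ) : K) + ((∑ σ, Γ σ * y σ : ℚ) : K) * Z ^ 2 := by
      rw [hγ']
      push_cast
      rw [Finset.sum_mul, ← Finset.sum_add_distrib]
      refine Finset.sum_congr rfl fun σ _ => ?_
      rw [hy]
      ring
    rw [h2] at he
    obtain ⟨h5, h6⟩ := rat_zero hZ1 he
    rw [h4, h5, h6]
    push_cast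
    ring
  have hγS : ∀ e, γ e ≠ 0 → ∑ σ, (Γ σ : K) * σ (wS e) ≠ 0 := by
    intro e he h1
    have h2 : γ e * wS e = 0 := by
      rw [← h1, hγ, Finset.sum_mul]
      refine Finset.sum_congr rfl fun σ _ => ?_
      rw [hχS]
      ring
    exact (mul_ne_zero he (hwS0 e)) h2
  -- the idempotent
  obtain ⟨T, hT⟩ : ∃ T : Finset (Fin k → Fin 3), T = Finset.univ.filter fun e => γ e ≠ 0 :=
    ⟨_, rfl⟩
  have hTm : ∀ e, e ∈ T ↔ γ e ≠ 0 := by
    intro e
    rw [hT, Finset.mem_filter]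
    exact ⟨fun h => h.2, fun h => ⟨Finset.mem_univ _, h⟩⟩
  obtain ⟨ε, hε⟩ : ∃ ε : G → ℚ, ∀ σ, ε σ = ∑ e ∈ T,
    ((if 3 ∣ ∑ i, (e i : ℕ) * a σ i then (3 : ℚ) else 0) - 1) / (2 * 3 ^ k) :=
    ⟨fun σ => _, fun σ => rfl⟩
  have hεK : ∀ σ, (ε σ : K) = ∑ e ∈ T, (χ e σ + χ e σ ^ 2) / (2 * 3 ^ k) := by
    intro σ
    rw [hε, Rat.cast_sum]
    refine Finset.sum_congr rfl fun e _ => ?_
    rw [hχ, hZsum]
    push_cast
    split_ifs <;> simp
  have hconv : ∀ ρ : G, ∑ τ, Γ τ * ε (ρ * τ⁻¹) = Γ ρ := by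
    intro ρ
    have hinj : Function.Injective (fun q : ℚ => (q : K)) := Rat.cast_injective
    apply hinj
    change ((∑ τ, Γ τ * ε (ρ * τ⁻¹) : ℚ) : K) = (Γ ρ : K)
    have h2k : (2 * 3 ^ k : K) ≠ 0 := mul_ne_zero two_ne_zero (pow_ne_zero _ three_ne_zero)
    have hstep : ∀ e, ∑ τ, (Γ τ : K) * ((χ e (ρ * τ⁻¹) + χ e (ρ * τ⁻¹) ^ 2) / (2 * 3 ^ k)) =
        (χ e ρ * γ' e + χ e ρ ^ 2 * γ e) / (2 * 3 ^ k) := by
      intro e
      rw [hγ, hγ', Finset.mul_sum, Finset.mul_sum, ← Finset.sum_add_distrib, Finset.sum_div]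
      refine Finset.sum_congr rfl fun τ _ => ?_
      rw [hχmul, hχinv]
      have h5 : (χ e ρ * χ e τ ^ 2) ^ 2 = χ e ρ ^ 2 * χ e τ := by
        have := hχ3 e τ
        linear_combination χ e ρ ^ 2 * χ e τ * this
      rw [h5]
      ring
    have h1 : ((∑ τ, Γ τ * ε (ρ * τ⁻¹) : ℚ) : K) =
        ∑ e ∈ T, (χ e ρ * γ' e + χ e ρ ^ 2 * γ e) / (2 * 3 ^ k) := by
      push_cast
      simp only [hεK, Finset.mul_sum]
      rw [Finset.sum_comm]
      exact Finset.sum_congr rfl fun e _ => hstep e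
    have h2 : ∑ e ∈ T, (χ e ρ * γ' e + χ e ρ ^ 2 * γ e) / (2 * 3 ^ k) =
        ∑ e, (χ e ρ * γ' e + χ e ρ ^ 2 * γ e) / (2 * 3 ^ k) := by
      apply Finset.sum_subset (Finset.subset_univ _)
      intro e _ he
      rw [hTm, not_not] at he
      rw [hconj e he, he]
      simp
    rw [h1, h2]
    simp only [← hstep]
    rw [Finset.sum_comm]
    have h4 : ∀ τ : G, ∑ e, (Γ τ : K) * ((χ e (ρ * τ⁻¹) + χ e (ρ * τ⁻¹) ^ 2) / (2 * 3 ^ k)) =
        if ρ = τ then (Γ τ : K) else 0 := by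
      intro τ
      rw [← Finset.mul_sum, ← Finset.sum_div]
      have h5 : ∑ e, (χ e (ρ * τ⁻¹) + χ e (ρ * τ⁻¹) ^ 2) =
          (((∑ e : Fin k → Fin 3, (if 3 ∣ ∑ i, (e i : ℕ) * a (ρ * τ⁻¹) i then (3 : ℚ) else 0)) -
            3 ^ k : ℚ) : K) := by
        have h6 : ∀ e, χ e (ρ * τ⁻¹) + χ e (ρ * τ⁻¹) ^ 2 =
            (((if 3 ∣ ∑ i, (e i : ℕ) * a (ρ * τ⁻¹) i then (3 : ℚ) else 0) - 1 : ℚ) : K) := by
          intro e
          rw [hχ, hZsum]
          push_cast
          split_ifs <;> simp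
        rw [Finset.sum_congr rfl fun e _ => h6 e, ← Rat.cast_sum, Finset.sum_sub_distrib,
          Finset.sum_const, Finset.card_univ, Fintype.card_fun, Fintype.card_fin, Fintype.card_fin]
        push_cast
        simp
      rw [h5]
      by_cases hρτ : ρ = τ
      · rw [if_pos hρτ, hρτ, mul_inv_cancel]
        have h7 : ∀ e : Fin k → Fin 3, 3 ∣ ∑ i, (e i : ℕ) * a 1 i := by
          intro e
          rw [← hmem]
          exact one_mem _
        rw [Finset.sum_congr rfl fun e _ => if_pos (h7 e), Finset.sum_const, Finset.card_univ,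
          Fintype.card_fun, Fintype.card_fin, Fintype.card_fin, nsmul_eq_mul]
        push_cast
        have h8 : ((3 : K) ^ k * 3 - 3 ^ k) / (2 * 3 ^ k) = 1 := by
          rw [div_eq_one_iff_eq h2k]
          ring
        rw [h8, mul_one]
      · rw [if_neg hρτ]
        have h7 : ρ * τ⁻¹ ≠ 1 := fun h => hρτ (mul_inv_eq_one.1 h)
        rw [count3 _ (hσ1 _ h7), sub_self, Rat.cast_zero, zero_div, mul_zero]
    rw [Finset.sum_congr rfl fun τ _ => h4 τ, Finset.sum_ite_eq Finset.univ ρ,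
      if_pos (Finset.mem_univ _)]
  -- the subgroups
  let H' : Option T → Subgroup G := fun o => o.elim ⊤ (fun e => H e.1)
  let c : Option T → ℚ := fun o => o.elim (-((T.card : ℚ) / (2 * 3 ^ k)))
    (fun _ => 3 / (2 * 3 ^ k))
  have hcoef : ∀ σ : G, ∑ o, @ite ℚ (σ ∈ H' o) (Classical.propDecidable _) (c o) 0 = ε σ := by
    intro σ
    rw [Fintype.sum_option]
    have htop : σ ∈ H' none := Subgroup.mem_top σ
    have h1 : ∀ e : T, @ite ℚ (σ ∈ H' (some e)) (Classical.propDecidable _) (c (some e)) 0 =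
        (if 3 ∣ ∑ i, (e.1 i : ℕ) * a σ i then (3 : ℚ) else 0) / (2 * 3 ^ k) := by
      intro e
      by_cases he : σ ∈ H e.1
      · have he' : σ ∈ H' (some e) := he
        rw [if_pos he', if_pos ((hmem σ e.1).1 he)]
        rfl
      · have he' : σ ∉ H' (some e) := he
        rw [if_neg he', if_neg (fun h => he ((hmem σ e.1).2 h)), zero_div]
    rw [if_pos htop, Finset.sum_congr rfl fun e _ => h1 e,
      Finset.sum_coe_sort T (fun e => (if 3 ∣ ∑ i, (e i : ℕ) * a σ i then (3 : ℚ) else 0) /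
        (2 * 3 ^ k)), hε]
    simp only [sub_div]
    rw [Finset.sum_sub_distrib, Finset.sum_const, nsmul_eq_mul]
    simp only [c, Option.elim]
    ring
  have huni' : ∀ e : Fin k → Fin 3, (∃ L : IntermediateField ℂ K, k₀ ≤ L ∧
      ∏ i, w i ^ (e i : ℕ) ∈ L ∧ ∃ m : ℕ, Nonempty (L →ₐ[ℂ] FractionRing (PR m))) →
      ∃ (m : ℕ) (j : FixedPoints.subalgebra ℂ K (H e) →ₐ[ℂ] FractionRing (PR m)),
      Function.Injective j := by
    rintro e ⟨L, hkL, hSL, m, ⟨j⟩⟩
    have hle : ∀ x ∈ FixedPoints.subalgebra ℂ K (H e), x ∈ L := by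
      intro x hx
      have h1 : x ∈ IntermediateField.fixedField
          (IntermediateField.fixingSubgroup (IntermediateField.adjoin k₀ {wS e})) := by
        rw [IntermediateField.mem_fixedField_iff]
        intro σ hσ
        have h2 : σ ∈ H e := by
          rw [MulAction.mem_stabilizer_iff]
          exact (IntermediateField.mem_fixingSubgroup_iff _ _).1 hσ _
            (IntermediateField.mem_adjoin_simple_self k₀ _)
        exact hx ⟨σ, h2⟩
      rw [IsGalois.fixedField_fixingSubgroup] at h1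
      have h3 : (IntermediateField.adjoin k₀ {wS e}).restrictScalars ℂ ≤ L := by
        intro z hz
        have h4 : IntermediateField.adjoin k₀ {wS e} ≤
            IntermediateField.extendScalars hkL := by
          rw [IntermediateField.adjoin_simple_le_iff]
          exact hSL
        exact h4 hz
      exact h3 h1
    let κ : FixedPoints.subalgebra ℂ K (H e) →ₐ[ℂ] L :=
      Subalgebra.inclusion (S := FixedPoints.subalgebra ℂ K (H e)) (T := L.toSubalgebra) hle
    exact ⟨m, j.comp κ, j.injective.comp (Subalgebra.inclusion_injective hle)⟩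
  have hembed : ∀ o, ∃ (m : ℕ) (j : FixedPoints.subalgebra ℂ K (H' o) →ₐ[ℂ] FractionRing (PR m)),
      Function.Injective j := by
    intro o
    cases o with
    | none =>
      obtain ⟨m, j, hj⟩ := huni' 0 ⟨k₀, le_rfl, by simp, hk₀⟩
      have hle : FixedPoints.subalgebra ℂ K (H' none) ≤ FixedPoints.subalgebra ℂ K (H 0) := by
        intro x hx σ
        exact hx ⟨σ.1, Subgroup.mem_top _⟩
      exact ⟨m, j.comp (Subalgebra.inclusion hle), hj.comp (Subalgebra.inclusion_injective hle)⟩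
    | some e => exact huni' e.1 (huni e.1 (hγS e.1 ((hTm e.1).1 e.2)))
  -- the machine for all translates
  have hmach := fun τ : G => machine_corr G ε H' c hcoef hembed (fun i => τ • ξ i)
  choose Bt hBt hfg hm using hmach
  have hle : ∀ τ, Bt τ ≤ Finset.univ.sup Bt := fun τ => Finset.le_sup (Finset.mem_univ τ)
  have hB : ∀ (σ : G) i, σ (ξ i) ∈ Finset.univ.sup Bt := by
    intro σ i
    have h1 := hBt 1 σ i
    rw [one_smul] at h1
    exact hle 1 h1
  refine ⟨Finset.univ.sup Bt, hB, fg_sup _ _ hfg, ?_⟩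
  intro Y hY φ φ' p p' hp hp'
  have hYτ : ∀ τ : G, Y.OnCone (fun i => τ • ξ i) := by
    intro τ
    exact hY.map (MulSemiringAction.toAlgHom ℂ K τ)
  have hτ : ∀ τ : G, ∑ σ, ε σ • cls (p (σ * τ)) = ∑ σ, ε σ • cls (p' (σ * τ)) := by
    intro τ
    refine hm τ Y (hYτ τ) (φ.comp (Subalgebra.inclusion (hle τ)))
      (φ'.comp (Subalgebra.inclusion (hle τ))) (fun σ => p (σ * τ)) (fun σ => p' (σ * τ)) ?_ ?_
    · intro σ i
      rw [hp]
      rfl
    · intro σ i
      rw [hp']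
      rfl
  have hfin' : ∀ q : G → Y.Pts ℂ, ∑ ρ, Γ ρ • cls (q ρ) =
      ∑ τ, Γ τ • ∑ σ, ε σ • cls (q (σ * τ)) := by
    intro q
    have h1 : ∀ τ, ∑ σ, ε σ • cls (q (σ * τ)) = ∑ ρ, ε (ρ * τ⁻¹) • cls (q ρ) := by
      intro τ
      refine Fintype.sum_equiv (Equiv.mulRight τ) _ _ fun σ => ?_
      rw [Equiv.coe_mulRight, mul_inv_cancel_right]
    simp only [h1, Finset.smul_sum, smul_smul]
    rw [Finset.sum_comm]
    refine Finset.sum_congr rfl fun ρ _ => ?_
    rw [← Finset.sum_smul, hconv]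
  change ∑ σ, Γ σ • cls (p σ) = ∑ σ, Γ σ • cls (p' σ)
  rw [hfin' p, hfin' p']
  exact Finset.sum_congr rfl fun τ _ => by rw [hτ]

end Pool.Agent.J4H98.TG
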